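import Mathlib

/-!
# Mod 2 chains, the deletion/link game and the topological Hall theorem

A complex on a finite type `β` is a down-closed set of finite sets.  `Game K N` gives a certificate that the reduced
homology of `K` with coefficients in `ZMod 2` vanishes in all degrees at most `N - 2`.
-/

set_option autoImplicit false

namespace Pool.Agent.Lib.MP_ce98c0_co.Topo

open Finset

section Basic

variable {β : Type*} [Fintype β] [DecidableEq β]

/-- boundary of a mod 2 chain -/
def bd (z : Finset β → ZMod 2) (τ : Finset β) : ZMod 2 :=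
  ∑ x : β, if x ∈ τ then 0 else z (insert x τ)

/-- the chain `z` is supported on the faces of `K` with `m` elements -/
def SuppOn (K : Set (Finset β)) (m : ℕ) (z : Finset β → ZMod 2) : Prop :=
  ∀ σ, z σ ≠ 0 → σ ∈ K ∧ σ.card = m

/-- every cycle on faces with `m` elements is a boundary -/
def Acy (K : Set (Finset β)) (m : ℕ) : Prop :=
  ∀ z : Finset β → ZMod 2, SuppOn K m z → (∀ τ, bd z τ = 0) →
    ∃ w : Finset β → ZMod 2, SuppOn K (m + 1) w ∧ ∀ τ, bd w τ = z τ

/-- deletion of a vertex -/
def del (K : Set (Finset β)) (e : β) : Set (Finset β) := {σ | σ ∈ K ∧ e ∉ σ}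

/-- link of a vertex -/
def lk (K : Set (Finset β)) (e : β) : Set (Finset β) := {σ | e ∉ σ ∧ insert e σ ∈ K}

/-- combination of a chain `p` and the cone over a chain `q` -/
def comb (e : β) (p q : Finset β → ZMod 2) (σ : Finset β) : ZMod 2 :=
  if e ∈ σ then q (σ.erase e) else p σ

theorem bd_comb (e : β) (p q : Finset β → ZMod 2) (hp : ∀ σ, e ∈ σ → p σ = 0)
    (hq : ∀ σ, e ∈ σ → q σ = 0) (τ : Finset β) :
    bd (comb e p q) τ = if e ∈ τ then bd q (τ.erase e) else q τ + bd p τ := by
  by_cases he : e ∈ τ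
  · rw [if_pos he]
    unfold bd
    refine Finset.sum_congr rfl fun x _ => ?_
    by_cases hx : x = e
    · subst hx
      rw [if_pos he, if_neg (Finset.notMem_erase x τ), hq _ (Finset.mem_insert_self _ _)]
    · by_cases hxt : x ∈ τ
      · rw [if_pos hxt, if_pos (Finset.mem_erase.mpr ⟨hx, hxt⟩)]
      · rw [if_neg hxt, if_neg (fun h => hxt (Finset.mem_of_mem_erase h))]
        unfold comb
        rw [if_pos (Finset.mem_insert_of_mem he), Finset.erase_insert_of_ne hx]
  · rw [if_neg he]
    unfold bd
    have h1 : ∀ x : β, (if x ∈ τ then 0 else comb e p q (insert x τ))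
        = (if x = e then q τ else 0) + (if x ∈ τ then 0 else p (insert x τ)) := by
      intro x
      by_cases hx : x = e
      · subst hx
        rw [if_neg he, if_neg he, if_pos rfl, hp _ (Finset.mem_insert_self _ _), add_zero]
        unfold comb
        rw [if_pos (Finset.mem_insert_self _ _), Finset.erase_insert he]
      · rw [if_neg hx, zero_add]
        by_cases hxt : x ∈ τ
        · rw [if_pos hxt, if_pos hxt]
        · rw [if_neg hxt, if_neg hxt]
          unfold comb
          rw [if_neg]
          intro h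
          rcases Finset.mem_insert.mp h with h | h
          · exact hx h.symm
          · exact he h
    rw [Finset.sum_congr rfl fun x _ => h1 x, Finset.sum_add_distrib, Finset.sum_ite_eq' Finset.univ e,
      if_pos (Finset.mem_univ e)]

theorem two_self (a : ZMod 2) : a + a = 0 := CharTwo.add_self_eq_zero a

theorem eq_of_add_zero {a b : ZMod 2} (h : a + b = 0) : b = a := by
  have : a + (a + b) = a := by rw [h, add_zero]
  rw [← add_assoc, two_self, zero_add] at this
  exact this

/-- the part of a chain on faces without `e` -/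
def z0 (e : β) (z : Finset β → ZMod 2) (σ : Finset β) : ZMod 2 := if e ∈ σ then 0 else z σ

/-- the link part of a chain -/
def z1 (e : β) (z : Finset β → ZMod 2) (σ : Finset β) : ZMod 2 := if e ∈ σ then 0 else z (insert e σ)

theorem comb_z0_z1 (e : β) (z : Finset β → ZMod 2) : comb e (z0 e z) (z1 e z) = z := by
  funext σ
  unfold comb z0 z1
  by_cases he : e ∈ σ
  · rw [if_pos he, if_neg (Finset.notMem_erase e σ), Finset.insert_erase he]
  · rw [if_neg he, if_neg he]

theorem z0_zero (e : β) (z : Finset β → ZMod 2) (σ : Finset β) (h : e ∈ σ) : z0 e z σ = 0 := by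
  unfold z0
  rw [if_pos h]

theorem z1_zero (e : β) (z : Finset β → ZMod 2) (σ : Finset β) (h : e ∈ σ) : z1 e z σ = 0 := by
  unfold z1
  rw [if_pos h]

theorem bd_zero_of_mem (e : β) (p : Finset β → ZMod 2) (hp : ∀ σ, e ∈ σ → p σ = 0) (τ : Finset β)
    (h : e ∈ τ) : bd p τ = 0 := by
  unfold bd
  refine Finset.sum_eq_zero fun x _ => ?_
  split_ifs
  · rfl
  · exact hp _ (Finset.mem_insert_of_mem h)

theorem cycle_parts (e : β) (z : Finset β → ZMod 2) (hz : ∀ τ, bd z τ = 0) :
    (∀ τ, bd (z1 e z) τ = 0) ∧ (∀ τ, bd (z0 e z) τ = z1 e z τ) := by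
  have h : ∀ τ, (if e ∈ τ then bd (z1 e z) (τ.erase e) else z1 e z τ + bd (z0 e z) τ) = 0 := by
    intro τ
    rw [← bd_comb e _ _ (z0_zero e z) (z1_zero e z), comb_z0_z1]
    exact hz τ
  constructor
  · intro τ
    by_cases he : e ∈ τ
    · exact bd_zero_of_mem e _ (z1_zero e z) τ he
    · have := h (insert e τ)
      rwa [if_pos (Finset.mem_insert_self _ _), Finset.erase_insert he] at this
  · intro τ
    by_cases he : e ∈ τ
    · rw [bd_zero_of_mem e _ (z0_zero e z) τ he, z1_zero e z τ he]
    · have := h τ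
      rw [if_neg he] at this
      exact eq_of_add_zero this

theorem bd_add (p q : Finset β → ZMod 2) (τ : Finset β) :
    bd (fun σ => p σ + q σ) τ = bd p τ + bd q τ := by
  unfold bd
  rw [← Finset.sum_add_distrib]
  refine Finset.sum_congr rfl fun x _ => ?_
  split_ifs
  · rw [add_zero]
  · rfl

theorem acy_cone (K : Set (Finset β)) (e : β) (h : ∀ σ ∈ K, insert e σ ∈ K) (m : ℕ) : Acy K m := by
  intro z hz hc
  obtain ⟨h1, h0⟩ := cycle_parts e z hc
  refine ⟨comb e (fun _ => 0) (z0 e z), ?_, ?_⟩
  · intro σ hσ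
    unfold comb at hσ
    by_cases he : e ∈ σ
    · rw [if_pos he] at hσ
      have h2 : z (σ.erase e) ≠ 0 := by
        unfold z0 at hσ
        rwa [if_neg (Finset.notMem_erase e σ)] at hσ
      obtain ⟨h3, h4⟩ := hz _ h2
      refine ⟨?_, ?_⟩
      · have := h _ h3
        rwa [Finset.insert_erase he] at this
      · rw [← Finset.card_erase_add_one he, h4]
    · rw [if_neg he] at hσ
      exact absurd rfl hσ
  · intro τ
    rw [bd_comb e _ _ (fun _ _ => rfl) (z0_zero e z)]
    by_cases he : e ∈ τ
    · rw [if_pos he, h0]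
      unfold z1
      rw [if_neg (Finset.notMem_erase e τ), Finset.insert_erase he]
    · rw [if_neg he]
      have h5 : bd (fun _ : Finset β => (0 : ZMod 2)) τ = 0 := by
        unfold bd
        simp
      rw [h5, add_zero]
      unfold z0
      rw [if_neg he]

theorem acy_step (K : Set (Finset β)) (hK : IsLowerSet K) (e : β) (N : ℕ)
    (h1 : ∀ m < N + 1, Acy (del K e) m) (h2 : ∀ m < N, Acy (lk K e) m) :
    ∀ m < N + 1, Acy K m := by
  intro m hm z hz hc
  rcases Nat.eq_zero_or_pos m with rfl | hpos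
  · have hz' : SuppOn (del K e) 0 z := by
      intro σ hσ
      obtain ⟨h3, h4⟩ := hz σ hσ
      refine ⟨⟨h3, ?_⟩, h4⟩
      rw [Finset.card_eq_zero.mp h4]
      exact Finset.notMem_empty e
    obtain ⟨w, hw, hbw⟩ := h1 0 hm z hz' hc
    exact ⟨w, fun σ hσ => ⟨(hw σ hσ).1.1, (hw σ hσ).2⟩, hbw⟩
  · obtain ⟨k, rfl⟩ : ∃ k, m = k + 1 := ⟨m - 1, by omega⟩
    obtain ⟨hc1, hc0⟩ := cycle_parts e z hc
    have hs1 : SuppOn (lk K e) k (z1 e z) := by
      intro σ hσ
      unfold z1 at hσ
      by_cases he : e ∈ σ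
      · rw [if_pos he] at hσ
        exact absurd rfl hσ
      · rw [if_neg he] at hσ
        obtain ⟨h3, h4⟩ := hz _ hσ
        refine ⟨⟨he, h3⟩, ?_⟩
        rw [Finset.card_insert_of_notMem he] at h4
        omega
    obtain ⟨w1, hw1, hb1⟩ := h2 k (by omega) (z1 e z) hs1 hc1
    have hw1e : ∀ σ, e ∈ σ → w1 σ = 0 := by
      intro σ he
      by_contra hne
      exact (hw1 σ hne).1.1 he
    have hs0 : SuppOn (del K e) (k + 1) (fun σ => z0 e z σ + w1 σ) := by
      intro σ hσ
      by_cases hw : w1 σ = 0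
      · have h3 : z0 e z σ ≠ 0 := by
          intro h4
          apply hσ
          change z0 e z σ + w1 σ = 0
          rw [h4, hw, add_zero]
        unfold z0 at h3
        by_cases he : e ∈ σ
        · rw [if_pos he] at h3
          exact absurd rfl h3
        · rw [if_neg he] at h3
          obtain ⟨h5, h6⟩ := hz σ h3
          exact ⟨⟨h5, he⟩, h6⟩
      · obtain ⟨⟨h3, h4⟩, h5⟩ := hw1 σ hw
        exact ⟨⟨hK (Finset.subset_insert e σ) h4, h3⟩, h5⟩
    have hb0 : ∀ τ, bd (fun σ => z0 e z σ + w1 σ) τ = 0 := by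
      intro τ
      rw [bd_add, hc0, hb1, two_self]
    obtain ⟨w0, hw0, hbw0⟩ := h1 (k + 1) hm _ hs0 hb0
    have hw0e : ∀ σ, e ∈ σ → w0 σ = 0 := by
      intro σ he
      by_contra hne
      exact (hw0 σ hne).1.2 he
    refine ⟨comb e w0 w1, ?_, ?_⟩
    · intro σ hσ
      unfold comb at hσ
      by_cases he : e ∈ σ
      · rw [if_pos he] at hσ
        obtain ⟨⟨_, h4⟩, h5⟩ := hw1 _ hσ
        rw [Finset.insert_erase he] at h4
        refine ⟨h4, ?_⟩
        rw [← Finset.card_erase_add_one he, h5]
      · rw [if_neg he] at hσ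
        exact ⟨(hw0 σ hσ).1.1, (hw0 σ hσ).2⟩
    · intro τ
      rw [bd_comb e _ _ hw0e hw1e]
      by_cases he : e ∈ τ
      · rw [if_pos he, hb1]
        unfold z1
        rw [if_neg (Finset.notMem_erase e τ), Finset.insert_erase he]
      · rw [if_neg he, hbw0, add_comm (z0 e z τ), ← add_assoc, two_self, zero_add]
        unfold z0
        rw [if_neg he]

/-- Certificates for vanishing of the homology: a cone, or deletion and link of a vertex. -/
inductive Game : Set (Finset β) → ℕ → Prop
  | zero (K : Set (Finset β)) : Game K 0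
  | cone (K : Set (Finset β)) (e : β) (N : ℕ) (h : ∀ σ ∈ K, insert e σ ∈ K) : Game K N
  | step (K : Set (Finset β)) (e : β) (N : ℕ) (h1 : Game (del K e) (N + 1)) (h2 : Game (lk K e) N) :
      Game K (N + 1)

theorem isLowerSet_del {K : Set (Finset β)} (hK : IsLowerSet K) (e : β) : IsLowerSet (del K e) :=
  fun _ _ hab ha => ⟨hK hab ha.1, fun h => ha.2 (hab h)⟩

theorem isLowerSet_lk {K : Set (Finset β)} (hK : IsLowerSet K) (e : β) : IsLowerSet (lk K e) :=
  fun _ _ hab ha => ⟨fun h => ha.1 (hab h), hK (Finset.insert_subset_insert e hab) ha.2⟩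

theorem Game.acy {K : Set (Finset β)} {N : ℕ} (h : Game K N) (hK : IsLowerSet K) :
    ∀ m < N, Acy K m := by
  induction h with
  | zero K => intro m hm; omega
  | cone K e N h => exact fun m _ => acy_cone K e h m
  | step K e N _ _ ih1 ih2 =>
    exact acy_step K hK e N (ih1 (isLowerSet_del hK e)) (ih2 (isLowerSet_lk hK e))

theorem Game.mono {K : Set (Finset β)} {N : ℕ} (h : Game K N) : ∀ M ≤ N, Game K M := by
  induction h with
  | zero K => intro M hM; rw [Nat.le_zero.mp hM]; exact Game.zero K
  | cone K e N h => exact fun M _ => Game.cone K e M h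
  | step K e N _ _ ih1 ih2 =>
    intro M hM
    rcases Nat.eq_zero_or_pos M with rfl | hpos
    · exact Game.zero K
    · obtain ⟨k, rfl⟩ : ∃ k, M = k + 1 := ⟨M - 1, by omega⟩
      exact Game.step K e k (ih1 (k + 1) hM) (ih2 k (by omega))

end Basic

section Join

variable {β γ : Type*} [Fintype β] [DecidableEq β] [Fintype γ] [DecidableEq γ]

/-- join of two complexes -/
def join (K : Set (Finset β)) (L : Set (Finset γ)) : Set (Finset (β ⊕ γ)) :=
  {σ | σ.toLeft ∈ K ∧ σ.toRight ∈ L}

theorem toLeft_insert_inl' (e : β) (σ : Finset (β ⊕ γ)) :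
    (insert (Sum.inl e) σ).toLeft = insert e σ.toLeft := by
  ext x; simp

theorem toRight_insert_inl' (e : β) (σ : Finset (β ⊕ γ)) :
    (insert (Sum.inl e) σ).toRight = σ.toRight := by
  ext x; simp

theorem toRight_insert_inr' (e : γ) (σ : Finset (β ⊕ γ)) :
    (insert (Sum.inr e) σ).toRight = insert e σ.toRight := by
  ext x; simp

theorem toLeft_insert_inr' (e : γ) (σ : Finset (β ⊕ γ)) :
    (insert (Sum.inr e) σ).toLeft = σ.toLeft := by
  ext x; simp

theorem del_join_inl (K : Set (Finset β)) (L : Set (Finset γ)) (e : β) :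
    del (join K L) (Sum.inl e) = join (del K e) L := by
  ext σ
  simp only [del, join, Set.mem_setOf_eq, Finset.mem_toLeft]
  tauto

theorem del_join_inr (K : Set (Finset β)) (L : Set (Finset γ)) (e : γ) :
    del (join K L) (Sum.inr e) = join K (del L e) := by
  ext σ
  simp only [del, join, Set.mem_setOf_eq, Finset.mem_toRight]
  tauto

theorem lk_join_inl (K : Set (Finset β)) (L : Set (Finset γ)) (e : β) :
    lk (join K L) (Sum.inl e) = join (lk K e) L := by
  ext σ
  simp only [lk, join, Set.mem_setOf_eq, Finset.mem_toLeft, toLeft_insert_inl', toRight_insert_inl']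
  tauto

theorem lk_join_inr (K : Set (Finset β)) (L : Set (Finset γ)) (e : γ) :
    lk (join K L) (Sum.inr e) = join K (lk L e) := by
  ext σ
  simp only [lk, join, Set.mem_setOf_eq, Finset.mem_toRight, toLeft_insert_inr', toRight_insert_inr']
  tauto

theorem Game.join_right {L : Set (Finset γ)} {M : ℕ} (hL : Game L M) (K : Set (Finset β)) :
    Game (join K L) M := by
  induction hL with
  | zero L => exact Game.zero _
  | cone L e M h =>
    refine Game.cone _ (Sum.inr e) M ?_
    intro σ hσ
    refine ⟨?_, ?_⟩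
    · rw [toLeft_insert_inr']; exact hσ.1
    · rw [toRight_insert_inr']; exact h _ hσ.2
  | step L e M _ _ ih1 ih2 =>
    refine Game.step _ (Sum.inr e) M ?_ ?_
    · rw [del_join_inr]; exact ih1
    · rw [lk_join_inr]; exact ih2

theorem Game.join {K : Set (Finset β)} {N : ℕ} (hK : Game K N) {L : Set (Finset γ)} {M : ℕ}
    (hL : Game L M) : Game (Topo.join K L) (N + M) := by
  induction hK with
  | zero K => rw [zero_add]; exact hL.join_right K
  | cone K e N h =>
    refine Game.cone _ (Sum.inl e) _ ?_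
    intro σ hσ
    refine ⟨?_, ?_⟩
    · rw [toLeft_insert_inl']; exact h _ hσ.1
    · rw [toRight_insert_inl']; exact hσ.2
  | step K e N _ _ ih1 ih2 =>
    have h3 : N + 1 + M = (N + M) + 1 := by omega
    rw [h3]
    refine Game.step _ (Sum.inl e) (N + M) ?_ ?_
    · rw [del_join_inl, ← h3]; exact ih1
    · rw [lk_join_inl]; exact ih2

end Join

end Pool.Agent.Lib.MP_ce98c0_co.Topo
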