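import Pool.Agent.Lib.MP_ce98c0_co.Topo.Chain

/-!
# A topological Hall theorem for two copies of a finite set

If all induced complexes on two copies of `I` have vanishing homology up to degree `|I| - 2`, then the complex
contains a face consisting of exactly one copy of every element.  The proof is a parity argument of Sperner type.
-/

set_option autoImplicit false

namespace Pool.Agent.Lib.MP_ce98c0_co.Topo

open Finset

variable {α : Type*} [Fintype α] [DecidableEq α]

/-- the induced complex on two copies of `I` -/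
def restrict (K : Set (Finset (α ⊕ α))) (I : Finset α) : Set (Finset (α ⊕ α)) :=
  {σ | σ ∈ K ∧ σ.toLeft ⊆ I ∧ σ.toRight ⊆ I}

theorem isLowerSet_restrict {K : Set (Finset (α ⊕ α))} (hK : IsLowerSet K) (I : Finset α) :
    IsLowerSet (restrict K I) := by
  intro a b hab ha
  refine ⟨hK hab ha.1, fun x hx => ha.2.1 ?_, fun x hx => ha.2.2 ?_⟩
  · rw [Finset.mem_toLeft] at hx ⊢
    exact hab hx
  · rw [Finset.mem_toRight] at hx ⊢
    exact hab hx

theorem restrict_mono (K : Set (Finset (α ⊕ α))) {I J : Finset α} (h : I ⊆ J) {σ : Finset (α ⊕ α)}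
    (hσ : σ ∈ restrict K I) : σ ∈ restrict K J :=
  ⟨hσ.1, hσ.2.1.trans h, hσ.2.2.trans h⟩

theorem insert_inl_disjSum (a : α) (T B : Finset α) :
    insert (Sum.inl a) (T.disjSum B) = (insert a T).disjSum B := by
  ext x
  rcases x with x | x <;> simp

theorem insert_inr_disjSum (a : α) (T B : Finset α) :
    insert (Sum.inr a) (T.disjSum B) = T.disjSum (insert a B) := by
  ext x
  rcases x with x | x <;> simp

theorem bd_disjSum (z : Finset (α ⊕ α) → ZMod 2) (T B : Finset α) :
    bd z (T.disjSum B) = (∑ a : α, if a ∈ T then 0 else z ((insert a T).disjSum B)) +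
      ∑ a : α, if a ∈ B then 0 else z (T.disjSum (insert a B)) := by
  unfold bd
  rw [Fintype.sum_sum_type]
  simp only [Finset.inl_mem_disjSum, Finset.inr_mem_disjSum, insert_inl_disjSum, insert_inr_disjSum]

/-- the number modulo 2 of faces of a chain which consist of one copy of every element of `J` -/
def psi (z : Finset (α ⊕ α) → ZMod 2) (J : Finset α) : ZMod 2 :=
  ∑ T ∈ J.powerset, z (T.disjSum (J \ T))

theorem psi_bd (z : Finset (α ⊕ α) → ZMod 2) (J : Finset α) :
    psi (bd z) J = ∑ a : α, if a ∈ J then 0 else psi z (insert a J) := by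
  unfold psi
  have h1 : ∀ T ∈ J.powerset, bd z (T.disjSum (J \ T)) = ∑ a : α,
      ((if a ∈ T then 0 else z ((insert a T).disjSum (J \ T))) +
        (if a ∈ J \ T then 0 else z (T.disjSum (insert a (J \ T))))) := by
    intro T _
    rw [bd_disjSum, Finset.sum_add_distrib]
  rw [Finset.sum_congr rfl h1, Finset.sum_comm]
  refine Finset.sum_congr rfl fun a _ => ?_
  by_cases ha : a ∈ J
  · rw [if_pos ha]
    obtain ⟨J₀, ha₀, rfl⟩ : ∃ J₀ : Finset α, a ∉ J₀ ∧ insert a J₀ = J :=
      ⟨J.erase a, Finset.notMem_erase a J, Finset.insert_erase ha⟩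
    rw [Finset.sum_powerset_insert ha₀, ← Finset.sum_add_distrib]
    refine Finset.sum_eq_zero fun T hT => ?_
    have hT' : T ⊆ J₀ := Finset.mem_powerset.mp hT
    have haT : a ∉ T := fun h => ha₀ (hT' h)
    have e1 : a ∈ insert a J₀ \ T := Finset.mem_sdiff.mpr ⟨Finset.mem_insert_self _ _, haT⟩
    have e2 : a ∉ insert a J₀ \ insert a T := fun h =>
      (Finset.mem_sdiff.mp h).2 (Finset.mem_insert_self _ _)
    have e3 : insert a (insert a J₀ \ insert a T) = insert a J₀ \ T := by
      ext x
      simp only [Finset.mem_insert, Finset.mem_sdiff]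
      constructor
      · rintro (rfl | ⟨h2, h3⟩)
        · exact ⟨Or.inl rfl, haT⟩
        · exact ⟨h2, fun h => h3 (Or.inr h)⟩
      · rintro ⟨h2, h3⟩
        by_cases hx : x = a
        · exact Or.inl hx
        · exact Or.inr ⟨h2, fun h => h.elim hx h3⟩
    rw [if_neg haT, if_pos e1, if_pos (Finset.mem_insert_self a T), if_neg e2, e3, add_zero, zero_add,
      two_self]
  · rw [if_neg ha, Finset.sum_powerset_insert ha, Finset.sum_add_distrib, add_comm]
    congr 1
    · refine Finset.sum_congr rfl fun T hT => ?_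
      have hT' : T ⊆ J := Finset.mem_powerset.mp hT
      have haT : a ∉ T := fun h => ha (hT' h)
      rw [if_neg (fun h => ha (Finset.mem_sdiff.mp h).1), Finset.insert_sdiff_of_notMem _ haT]
    · refine Finset.sum_congr rfl fun T hT => ?_
      have hT' : T ⊆ J := Finset.mem_powerset.mp hT
      have haT : a ∉ T := fun h => ha (hT' h)
      rw [if_neg haT]
      congr 2
      ext x
      simp only [Finset.mem_insert, Finset.mem_sdiff]
      constructor
      · rintro ⟨h2, h3⟩
        refine ⟨Or.inr h2, ?_⟩
        rintro (rfl | h)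
        · exact ha h2
        · exact h3 h
      · rintro ⟨h2, h3⟩
        refine ⟨?_, fun h => h3 (Or.inr h)⟩
        rcases h2 with rfl | h2
        · exact absurd (Or.inl rfl) h3
        · exact h2

theorem sum_erase_erase (g : Finset α → ZMod 2) (I : Finset α) :
    ∑ i ∈ I, ∑ j ∈ I.erase i, g ((I.erase i).erase j) = 0 := by
  rw [Finset.sum_sigma']
  refine Finset.sum_involution (fun x _ => ⟨x.2, x.1⟩) ?_ ?_ ?_ ?_
  · rintro ⟨i, j⟩ _
    change g ((I.erase i).erase j) + g ((I.erase j).erase i) = 0
    rw [Finset.erase_right_comm, two_self]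
  · rintro ⟨i, j⟩ h _ h2
    rw [Finset.mem_sigma] at h
    have h3 : j ≠ i := (Finset.mem_erase.mp h.2).1
    have h4 := congrArg Sigma.fst h2
    exact h3 h4
  · rintro ⟨i, j⟩ h
    rw [Finset.mem_sigma] at h ⊢
    have h3 := Finset.mem_erase.mp h.2
    exact ⟨h3.2, Finset.mem_erase.mpr ⟨fun h4 => h3.1 h4.symm, h.1⟩⟩
  · rintro ⟨i, j⟩ _
    rfl

theorem bd_sum {ι : Type*} (s : Finset ι) (f : ι → Finset (α ⊕ α) → ZMod 2) (τ : Finset (α ⊕ α)) :
    bd (fun σ => ∑ i ∈ s, f i σ) τ = ∑ i ∈ s, bd (f i) τ := by
  unfold bd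
  rw [Finset.sum_comm]
  refine Finset.sum_congr rfl fun x _ => ?_
  by_cases hx : x ∈ τ
  · simp [hx]
  · simp [hx]

/-- the chain map from the simplex on `α` to the complex, up to dimension `n - 1` -/
theorem exists_phi (K : Set (Finset (α ⊕ α))) (h0 : ∅ ∈ K)
    (h : ∀ I : Finset α, I.Nonempty → Acy (restrict K I) (I.card - 1)) (n : ℕ) :
    ∃ φ : Finset α → Finset (α ⊕ α) → ZMod 2,
      (∀ I, SuppOn (restrict K I) I.card (φ I)) ∧ (∀ τ, φ ∅ τ = if τ = ∅ then 1 else 0) ∧
      ∀ I, I.card ≤ n → ∀ τ, bd (φ I) τ = ∑ i ∈ I, φ (I.erase i) τ := by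
  induction n with
  | zero =>
    refine ⟨fun I τ => if I = ∅ then (if τ = ∅ then 1 else 0) else 0, ?_, ?_, ?_⟩
    · intro I σ hσ
      by_cases hI : I = ∅
      · subst hI
        simp only [if_true] at hσ
        by_cases hs : σ = ∅
        · subst hs
          refine ⟨⟨h0, ?_, ?_⟩, by simp⟩
          · intro x hx
            rw [Finset.mem_toLeft] at hx
            exact absurd hx (Finset.notMem_empty _)
          · intro x hx
            rw [Finset.mem_toRight] at hx
            exact absurd hx (Finset.notMem_empty _)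
        · rw [if_neg hs] at hσ
          exact absurd rfl hσ
      · simp only [if_neg hI] at hσ
        exact absurd rfl hσ
    · intro τ
      simp
    · intro I hI τ
      have hI' : I = ∅ := Finset.card_eq_zero.mp (Nat.le_zero.mp hI)
      subst hI'
      unfold bd
      simp
  | succ n ih =>
    obtain ⟨φ, hs, he, hb⟩ := ih
    have key : ∀ I : Finset α, I.card = n + 1 → ∃ w : Finset (α ⊕ α) → ZMod 2,
        SuppOn (restrict K I) (n + 1) w ∧ ∀ τ, bd w τ = ∑ i ∈ I, φ (I.erase i) τ := by
      intro I hI
      have hne : I.Nonempty := Finset.card_pos.mp (by omega)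
      have hA := h I hne
      rw [hI, Nat.add_sub_cancel] at hA
      refine hA (fun τ => ∑ i ∈ I, φ (I.erase i) τ) ?_ ?_
      · intro τ hτ
        obtain ⟨i, hi, hne'⟩ := Finset.exists_ne_zero_of_sum_ne_zero hτ
        obtain ⟨h1, h2⟩ := hs (I.erase i) τ hne'
        refine ⟨restrict_mono K (Finset.erase_subset i I) h1, ?_⟩
        rw [h2, Finset.card_erase_of_mem hi, hI, Nat.add_sub_cancel]
      · intro τ
        rw [bd_sum]
        have h3 : ∀ i ∈ I, bd (φ (I.erase i)) τ = ∑ j ∈ I.erase i, φ ((I.erase i).erase j) τ := by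
          intro i hi
          refine hb (I.erase i) ?_ τ
          rw [Finset.card_erase_of_mem hi]
          omega
        rw [Finset.sum_congr rfl h3]
        exact sum_erase_erase (fun J => φ J τ) I
    choose w hw hbw using key
    refine ⟨fun I => if hI : I.card = n + 1 then w I hI else φ I, ?_, ?_, ?_⟩
    · intro I
      by_cases hI : I.card = n + 1
      · simp only [dif_pos hI]
        rw [hI]
        exact hw I hI
      · simp only [dif_neg hI]
        exact hs I
    · intro τ
      have hI : ¬ (∅ : Finset α).card = n + 1 := by simp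
      simp only [dif_neg hI]
      exact he τ
    · intro I hI τ
      have hne : ∀ i ∈ I, ¬ (I.erase i).card = n + 1 := by
        intro i hi
        rw [Finset.card_erase_of_mem hi]
        have := Finset.card_pos.mpr ⟨i, hi⟩
        omega
      have h4 : ∑ i ∈ I, (fun I => if hI : I.card = n + 1 then w I hI else φ I) (I.erase i) τ
          = ∑ i ∈ I, φ (I.erase i) τ := by
        refine Finset.sum_congr rfl fun i hi => ?_
        simp only [dif_neg (hne i hi)]
      rw [h4]
      by_cases hI2 : I.card = n + 1
      · simp only [dif_pos hI2]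
        exact hbw I hI2 τ
      · simp only [dif_neg hI2]
        exact hb I (by omega) τ

theorem psi_phi (K : Set (Finset (α ⊕ α))) (φ : Finset α → Finset (α ⊕ α) → ZMod 2)
    (hs : ∀ I, SuppOn (restrict K I) I.card (φ I)) (he : ∀ τ, φ ∅ τ = if τ = ∅ then 1 else 0)
    (hb : ∀ I τ, bd (φ I) τ = ∑ i ∈ I, φ (I.erase i) τ) (J : Finset α) : psi (φ J) J = 1 := by
  have hzero : ∀ I J : Finset α, ¬ J ⊆ I → psi (φ I) J = 0 := by
    intro I J hIJ
    unfold psi
    refine Finset.sum_eq_zero fun T hT => ?_
    by_contra hne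
    obtain ⟨⟨_, h2, h3⟩, _⟩ := hs I _ hne
    rw [Finset.toLeft_disjSum] at h2
    rw [Finset.toRight_disjSum] at h3
    apply hIJ
    intro x hx
    by_cases hxT : x ∈ T
    · exact h2 hxT
    · exact h3 (Finset.mem_sdiff.mpr ⟨hx, hxT⟩)
  induction J using Finset.induction_on with
  | empty =>
    unfold psi
    rw [Finset.powerset_empty, Finset.sum_singleton, he, if_pos (by simp)]
  | insert i J hi ih =>
    have h1 := psi_bd (φ (insert i J)) J
    have h2 : ∑ a : α, (if a ∈ J then 0 else psi (φ (insert i J)) (insert a J))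
        = psi (φ (insert i J)) (insert i J) := by
      rw [Finset.sum_eq_single i]
      · rw [if_neg hi]
      · intro a _ hai
        by_cases haJ : a ∈ J
        · rw [if_pos haJ]
        · rw [if_neg haJ]
          apply hzero
          intro hsub
          rcases Finset.mem_insert.mp (hsub (Finset.mem_insert_self a J)) with h | h
          · exact hai h
          · exact haJ h
      · intro h
        exact absurd (Finset.mem_univ i) h
    have h3 : psi (bd (φ (insert i J))) J = ∑ k ∈ insert i J, psi (φ ((insert i J).erase k)) J := by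
      unfold psi
      rw [Finset.sum_comm]
      refine Finset.sum_congr rfl fun T _ => ?_
      exact hb _ _
    have h4 : ∑ k ∈ insert i J, psi (φ ((insert i J).erase k)) J = psi (φ J) J := by
      rw [Finset.sum_eq_single i]
      · rw [Finset.erase_insert hi]
      · intro k hk hki
        apply hzero
        intro hsub
        have hkJ : k ∈ J := (Finset.mem_insert.mp hk).resolve_left hki
        exact (Finset.mem_erase.mp (hsub hkJ)).1 rfl
      · intro h
        exact absurd (Finset.mem_insert_self i J) h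
    rw [← h2, ← h1, h3, h4, ih]

/-- the topological Hall theorem for two copies of a finite set -/
theorem hall (K : Set (Finset (α ⊕ α))) (hK : IsLowerSet K) (h0 : ∅ ∈ K)
    (h : ∀ I : Finset α, I.Nonempty → Game (restrict K I) I.card) :
    ∃ T : Finset α, T.disjSum (univ \ T) ∈ K := by
  have h' : ∀ I : Finset α, I.Nonempty → Acy (restrict K I) (I.card - 1) := by
    intro I hI
    have := Finset.card_pos.mpr hI
    exact (h I hI).acy (isLowerSet_restrict hK I) _ (by omega)
  obtain ⟨φ, hs, he, hb⟩ := exists_phi K h0 h' (Fintype.card α)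
  have h1 := psi_phi K φ hs he (fun I τ => hb I (Finset.card_le_univ I) τ) univ
  have h2 : psi (φ univ) univ ≠ 0 := by
    rw [h1]
    exact one_ne_zero
  unfold psi at h2
  obtain ⟨T, _, hT⟩ := Finset.exists_ne_zero_of_sum_ne_zero h2
  exact ⟨T, (hs univ _ hT).1.1⟩

end Pool.Agent.Lib.MP_ce98c0_co.Topo
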