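import Pool.Agent.Lib.MP_ce98c0_co.Topo.Weak

/-!
# The complex of arc sets whose deletion keeps a digraph strongly connected

The potential `#(soft arcs with tail in Q) - NQ F - 2 (ns F - 1)` is a lower bound for the connectivity of the
complex, where `ns F` is the number of source components and `NQ F` the number of the other strong components that
meet `Q`.
-/

set_option autoImplicit false

namespace Pool.Agent.Lib.MP_ce98c0_co.Topo

open Finset Classical

variable {V A : Type*} [Fintype V] (src tgt : A → V)

/-- reachability -/
def R (S : Set A) : V → V → Prop := Relation.ReflTransGen (fun x y => ∃ a ∈ S, src a = x ∧ tgt a = y)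

/-- the strong component of a vertex -/
noncomputable def cls (S : Set A) (u : V) : Finset V :=
  univ.filter (fun v => R src tgt S u v ∧ R src tgt S v u)

/-- the vertices in source components -/
noncomputable def Src (S : Set A) : Finset V :=
  univ.filter (fun u => ∀ w, R src tgt S w u → R src tgt S u w)

/-- the number of source components -/
noncomputable def ns (S : Set A) : ℕ := ((Src src tgt S).image (cls src tgt S)).card

/-- the number of non-source components that meet `Q` -/
noncomputable def NQ (Q : Finset V) (S : Set A) : ℕ := ((Q \ Src src tgt S).image (cls src tgt S)).card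

omit [Fintype V] in
theorem R.refl' (S : Set A) (u : V) : R src tgt S u u := Relation.ReflTransGen.refl

omit [Fintype V] in
theorem R.trans' {S : Set A} {u v w : V} (h : R src tgt S u v) (h' : R src tgt S v w) :
    R src tgt S u w := Relation.ReflTransGen.trans h h'

omit [Fintype V] in
theorem R.arc {S : Set A} {a : A} (ha : a ∈ S) : R src tgt S (src a) (tgt a) :=
  Relation.ReflTransGen.single ⟨a, ha, rfl, rfl⟩

omit [Fintype V] in
theorem R.mono {S S' : Set A} (h : S ⊆ S') {u v : V} (huv : R src tgt S u v) : R src tgt S' u v := by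
  unfold R at huv
  induction huv with
  | refl => exact R.refl' src tgt S' u
  | tail _ hst ih =>
    obtain ⟨a, ha, rfl, rfl⟩ := hst
    exact ih.trans' src tgt (R.arc src tgt (h ha))

omit [Fintype V] in
theorem R_insert (F : Set A) (a : A) (x y : V) :
    R src tgt (insert a F) x y ↔ R src tgt F x y ∨ (R src tgt F x (src a) ∧ R src tgt F (tgt a) y) := by
  constructor
  · intro h
    unfold R at h
    induction h with
    | refl => exact Or.inl (R.refl' src tgt F x)
    | tail _ hst ih =>
      obtain ⟨b, hb, rfl, rfl⟩ := hst
      rcases Set.mem_insert_iff.mp hb with rfl | hb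
      · rcases ih with ih | ⟨ih, _⟩
        · exact Or.inr ⟨ih, R.refl' src tgt F _⟩
        · exact Or.inr ⟨ih, R.refl' src tgt F _⟩
      · rcases ih with ih | ⟨ih, ih'⟩
        · exact Or.inl (ih.trans' src tgt (R.arc src tgt hb))
        · exact Or.inr ⟨ih, ih'.trans' src tgt (R.arc src tgt hb)⟩
  · rintro (h | ⟨h, h'⟩)
    · exact R.mono src tgt (Set.subset_insert a F) h
    · have h1 := R.mono src tgt (Set.subset_insert a F) h
      have h2 := R.mono src tgt (Set.subset_insert a F) h'
      have h3 : R src tgt (insert a F) (src a) (tgt a) := R.arc src tgt (Set.mem_insert a F)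
      exact (h1.trans' src tgt h3).trans' src tgt h2

theorem mem_cls {S : Set A} {u v : V} :
    v ∈ cls src tgt S u ↔ R src tgt S u v ∧ R src tgt S v u := by
  unfold cls
  simp

theorem mem_Src {S : Set A} {u : V} :
    u ∈ Src src tgt S ↔ ∀ w, R src tgt S w u → R src tgt S u w := by
  unfold Src
  simp

theorem cls_eq_iff (S : Set A) (u v : V) :
    cls src tgt S u = cls src tgt S v ↔ R src tgt S u v ∧ R src tgt S v u := by
  constructor
  · intro h
    have : v ∈ cls src tgt S v := by
      rw [mem_cls]
      exact ⟨R.refl' src tgt S v, R.refl' src tgt S v⟩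
    rw [← h, mem_cls] at this
    exact this
  · rintro ⟨h, h'⟩
    ext w
    rw [mem_cls, mem_cls]
    exact ⟨fun ⟨h1, h2⟩ => ⟨h'.trans' src tgt h1, h2.trans' src tgt h⟩,
      fun ⟨h1, h2⟩ => ⟨h.trans' src tgt h1, h2.trans' src tgt h'⟩⟩

theorem Src_of_cls {S : Set A} {u v : V} (hu : u ∈ Src src tgt S) (_ : R src tgt S u v)
    (h' : R src tgt S v u) : v ∈ Src src tgt S := by
  rw [mem_Src] at hu ⊢
  intro w hw
  exact h'.trans' src tgt (hu w (hw.trans' src tgt h'))

/-- every vertex is reachable from a source component -/
theorem exists_Src (S : Set A) (x : V) : ∃ y ∈ Src src tgt S, R src tgt S y x := by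
  obtain ⟨y, hy, hmin⟩ := Finset.exists_min_image (univ.filter (fun y => R src tgt S y x))
    (fun y => (univ.filter (fun w => R src tgt S w y)).card)
    ⟨x, Finset.mem_filter.mpr ⟨Finset.mem_univ x, R.refl' src tgt S x⟩⟩
  have hyx := (Finset.mem_filter.mp hy).2
  refine ⟨y, ?_, hyx⟩
  rw [mem_Src]
  intro w hw
  have h1 := hmin w (Finset.mem_filter.mpr ⟨Finset.mem_univ w, hw.trans' src tgt hyx⟩)
  have h2 : univ.filter (fun z => R src tgt S z w) ⊆ univ.filter (fun z => R src tgt S z y) := by
    intro z hz
    exact Finset.mem_filter.mpr ⟨Finset.mem_univ z, ((Finset.mem_filter.mp hz).2).trans' src tgt hw⟩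
  have h3 := Finset.eq_of_subset_of_card_le h2 h1
  have h4 : y ∈ univ.filter (fun z => R src tgt S z y) :=
    Finset.mem_filter.mpr ⟨Finset.mem_univ y, R.refl' src tgt S y⟩
  rw [← h3] at h4
  exact (Finset.mem_filter.mp h4).2

theorem card_image_cls_mono {S S' : Set A} (h : S ⊆ S') (Z : Finset V) :
    (Z.image (cls src tgt S')).card ≤ (Z.image (cls src tgt S)).card := by
  refine card_image_le_of _ _ _ ?_
  intro x _ y _ hxy
  rw [cls_eq_iff] at hxy ⊢
  exact ⟨R.mono src tgt h hxy.1, R.mono src tgt h hxy.2⟩

/-- the potential does not drop when a soft arc entering a source component becomes hard -/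
theorem potential (Q : Finset V) (F : Set A) (a : A) (hv : tgt a ∈ Src src tgt F)
    (hu : src a ∉ cls src tgt F (tgt a)) :
    NQ src tgt Q (insert a F) + 2 * ns src tgt (insert a F) + (if src a ∈ Q then 1 else 0) ≤
      NQ src tgt Q F + 2 * ns src tgt F := by
  have hsub : F ⊆ insert a F := Set.subset_insert a F
  have hv' := (mem_Src src tgt).mp hv
  have hnot : ¬ R src tgt F (src a) (tgt a) := by
    intro h
    exact hu ((mem_cls src tgt).mpr ⟨hv' _ h, h⟩)
  -- Fact 1
  have fact1 : ∀ x ∈ Src src tgt F, ¬ (R src tgt F x (tgt a) ∧ R src tgt F (tgt a) x) →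
      x ∈ Src src tgt (insert a F) := by
    intro x hx hxv
    have hx' := (mem_Src src tgt).mp hx
    rw [mem_Src]
    intro w hw
    rw [R_insert] at hw
    rcases hw with hw | ⟨_, hw⟩
    · exact R.mono src tgt hsub (hx' w hw)
    · exact absurd ⟨hx' _ hw, hw⟩ hxv
  -- Fact 2
  have fact2 : ∀ x ∈ Src src tgt (insert a F), x ∉ Src src tgt F →
      R src tgt (insert a F) x (tgt a) ∧ R src tgt (insert a F) (tgt a) x := by
    intro x hx hx'
    have hx1 := (mem_Src src tgt).mp hx
    rw [mem_Src] at hx'
    push Not at hx'
    obtain ⟨w, hw, hw'⟩ := hx'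
    have h1 := hx1 w (R.mono src tgt hsub hw)
    rw [R_insert] at h1
    rcases h1 with h1 | ⟨h1, h2⟩
    · exact absurd h1 hw'
    · refine ⟨?_, ?_⟩
      · rw [R_insert]
        exact Or.inr ⟨h1, R.refl' src tgt F _⟩
      · exact R.mono src tgt hsub (h2.trans' src tgt hw)
  have hmem : cls src tgt F (tgt a) ∈ (Src src tgt F).image (cls src tgt F) :=
    Finset.mem_image_of_mem _ hv
  by_cases hcase : tgt a ∈ Src src tgt (insert a F)
  · -- the component of the head is still a source component
    have hcase' := (mem_Src src tgt).mp hcase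
    have hau : R src tgt (insert a F) (src a) (tgt a) := R.arc src tgt (Set.mem_insert a F)
    have hvu' : R src tgt (insert a F) (tgt a) (src a) := hcase' _ hau
    have hvu : R src tgt F (tgt a) (src a) := by
      rw [R_insert] at hvu'
      rcases hvu' with h | ⟨h, _⟩
      · exact h
      · exact h
    have huS : src a ∉ Src src tgt F := fun h => hnot ((mem_Src src tgt).mp h _ hvu)
    have huS' : src a ∈ Src src tgt (insert a F) := Src_of_cls src tgt hcase hvu' hau
    have hs : ns src tgt (insert a F) ≤ ns src tgt F := by
      unfold ns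
      refine le_trans (Finset.card_le_card ?_) (card_image_cls_mono src tgt hsub (Src src tgt F))
      intro c hc
      obtain ⟨x, hx, rfl⟩ := Finset.mem_image.mp hc
      by_cases hxS : x ∈ Src src tgt F
      · exact Finset.mem_image_of_mem _ hxS
      · refine Finset.mem_image.mpr ⟨tgt a, hv, ?_⟩
        rw [cls_eq_iff]
        exact (fact2 x hx hxS).symm
    have hSS : Src src tgt F ⊆ Src src tgt (insert a F) := by
      intro x hx
      by_cases hxv : R src tgt F x (tgt a) ∧ R src tgt F (tgt a) x
      · exact Src_of_cls src tgt hcase (R.mono src tgt hsub hxv.2) (R.mono src tgt hsub hxv.1)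
      · exact fact1 x hx hxv
    have hN : NQ src tgt Q (insert a F) + (if src a ∈ Q then 1 else 0) ≤ NQ src tgt Q F := by
      unfold NQ
      have h1 : (Q \ Src src tgt (insert a F)).image (cls src tgt F) ⊆
          ((Q \ Src src tgt F).image (cls src tgt F)).erase (cls src tgt F (src a)) := by
        intro c hc
        obtain ⟨x, hx, rfl⟩ := Finset.mem_image.mp hc
        rw [Finset.mem_sdiff] at hx
        refine Finset.mem_erase.mpr ⟨?_, Finset.mem_image_of_mem _ ?_⟩
        · rw [Ne, cls_eq_iff]
          rintro ⟨h2, h3⟩
          exact hx.2 (Src_of_cls src tgt huS' (R.mono src tgt hsub h3) (R.mono src tgt hsub h2))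
        · exact Finset.mem_sdiff.mpr ⟨hx.1, fun h => hx.2 (hSS h)⟩
      have h2 := Finset.card_le_card h1
      have h3 := card_image_cls_mono src tgt hsub (Q \ Src src tgt (insert a F))
      by_cases hQ : src a ∈ Q
      · have h4 : cls src tgt F (src a) ∈ (Q \ Src src tgt F).image (cls src tgt F) :=
          Finset.mem_image_of_mem _ (Finset.mem_sdiff.mpr ⟨hQ, huS⟩)
        have h5 := Finset.card_erase_add_one h4
        rw [if_pos hQ]
        omega
      · rw [if_neg hQ]
        have h5 := Finset.card_le_card (Finset.erase_subset (cls src tgt F (src a))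
          ((Q \ Src src tgt F).image (cls src tgt F)))
        omega
    omega
  · -- one source component less
    have hSub : Src src tgt (insert a F) ⊆
        (Src src tgt F).filter (fun x => ¬ (R src tgt F x (tgt a) ∧ R src tgt F (tgt a) x)) := by
      intro x hx
      rw [Finset.mem_filter]
      constructor
      · by_contra hxS
        obtain ⟨h1, h2⟩ := fact2 x hx hxS
        exact hcase (Src_of_cls src tgt hx h1 h2)
      · rintro ⟨h1, h2⟩
        exact hcase (Src_of_cls src tgt hx (R.mono src tgt hsub h1) (R.mono src tgt hsub h2))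
    have hs : ns src tgt (insert a F) + 1 ≤ ns src tgt F := by
      unfold ns
      have h1 := card_image_cls_mono src tgt hsub (Src src tgt (insert a F))
      have h2 : (Src src tgt (insert a F)).image (cls src tgt F) ⊆
          ((Src src tgt F).image (cls src tgt F)).erase (cls src tgt F (tgt a)) := by
        intro c hc
        obtain ⟨x, hx, rfl⟩ := Finset.mem_image.mp hc
        have hx' := Finset.mem_filter.mp (hSub hx)
        refine Finset.mem_erase.mpr ⟨?_, Finset.mem_image_of_mem _ hx'.1⟩
        rw [Ne, cls_eq_iff]
        exact hx'.2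
      have h3 := Finset.card_le_card h2
      have h4 := Finset.card_erase_add_one hmem
      omega
    have hN : NQ src tgt Q (insert a F) ≤ NQ src tgt Q F + 1 := by
      unfold NQ
      have h1 := card_image_cls_mono src tgt hsub (Q \ Src src tgt (insert a F))
      have h2 : (Q \ Src src tgt (insert a F)).image (cls src tgt F) ⊆
          insert (cls src tgt F (tgt a)) ((Q \ Src src tgt F).image (cls src tgt F)) := by
        intro c hc
        obtain ⟨x, hx, rfl⟩ := Finset.mem_image.mp hc
        rw [Finset.mem_sdiff] at hx
        by_cases hxS : x ∈ Src src tgt F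
        · have hxv : R src tgt F x (tgt a) ∧ R src tgt F (tgt a) x := by
            by_contra hxv
            exact hx.2 (fact1 x hxS hxv)
          rw [(cls_eq_iff src tgt F x (tgt a)).mpr hxv]
          exact Finset.mem_insert_self _ _
        · exact Finset.mem_insert_of_mem
            (Finset.mem_image_of_mem _ (Finset.mem_sdiff.mpr ⟨hx.1, hxS⟩))
      have h3 := Finset.card_le_card h2
      have h4 := Finset.card_insert_le (cls src tgt F (tgt a)) ((Q \ Src src tgt F).image (cls src tgt F))
      omega
    split_ifs <;> omega

omit [Fintype V] in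
theorem R_leave {S : Set A} (C : V → Prop) {u v : V} (h : R src tgt S u v) (hu : ¬ C u) (hv : C v) :
    ∃ b ∈ S, ¬ C (src b) ∧ C (tgt b) := by
  unfold R at h
  induction h with
  | refl => exact absurd hv hu
  | @tail y z _ hst ih =>
    obtain ⟨b, hb, rfl, rfl⟩ := hst
    by_cases hy : C (src b)
    · exact ih hy
    · exact ⟨b, hb, hy, hv⟩

theorem game_strong [Nonempty V] (Q : Finset V) (n : ℕ) : ∀ (F : Set A) (E : Finset A), E.card = n →
    ∀ N, N + NQ src tgt Q F + 2 * ns src tgt F ≤ (E.filter (fun a => src a ∈ Q)).card + 2 →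
      Game (cx (StronglyConnected src tgt) F E) N := by
  have hns : ∀ F : Set A, 1 ≤ ns src tgt F := by
    intro F
    unfold ns
    obtain ⟨y, hy, _⟩ := exists_Src src tgt F (Classical.arbitrary V)
    exact Finset.card_pos.mpr (Finset.Nonempty.image ⟨y, hy⟩ _)
  induction n with
  | zero =>
    intro F E hE N hN
    have h1 := hns F
    have h2 : E = ∅ := Finset.card_eq_zero.mp hE
    subst h2
    rw [Finset.filter_empty, Finset.card_empty] at hN
    have hN0 : N = 0 := by omega
    rw [hN0]
    exact Game.zero _
  | succ n ih =>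
    intro F E hE N hN
    obtain ⟨a₀, ha₀⟩ : E.Nonempty := Finset.card_pos.mp (by omega)
    rcases Nat.eq_zero_or_pos N with rfl | hpos
    · exact Game.zero _
    obtain ⟨k, rfl⟩ : ∃ k, N = k + 1 := ⟨N - 1, by omega⟩
    by_cases hF : StronglyConnected src tgt F
    · refine Game.cone _ a₀ _ ?_
      rintro B ⟨hB, _⟩
      refine ⟨?_, ?_⟩
      · intro b hb
        rcases Finset.mem_insert.mp hb with rfl | hb
        · exact ha₀
        · exact hB hb
      · intro u v
        exact R.mono src tgt (fun c hc => Or.inl hc) (hF u v)
    · obtain ⟨v, hv, _⟩ := exists_Src src tgt F (Classical.arbitrary V)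
      by_cases hex : ∃ a ∈ E, tgt a ∈ cls src tgt F v ∧ src a ∉ cls src tgt F v
      · obtain ⟨a, ha, hta, hsa⟩ := hex
        have hta' := (mem_cls src tgt).mp hta
        have htS : tgt a ∈ Src src tgt F := Src_of_cls src tgt hv hta'.1 hta'.2
        have hcls : cls src tgt F (tgt a) = cls src tgt F v := by
          rw [cls_eq_iff]
          exact hta'.symm
        have hpot := potential src tgt Q F a htS (by rw [hcls]; exact hsa)
        have hcard : (E.erase a).card = n := by
          rw [Finset.card_erase_of_mem ha, hE, Nat.add_sub_cancel]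
        have hfil : (E.filter (fun b => src b ∈ Q)).card ≤
            ((E.erase a).filter (fun b => src b ∈ Q)).card + (if src a ∈ Q then 1 else 0) := by
          rw [Finset.filter_erase]
          by_cases hQ : src a ∈ Q
          · rw [if_pos hQ, Finset.card_erase_add_one (Finset.mem_filter.mpr ⟨ha, hQ⟩)]
          · have h8 : a ∉ E.filter (fun b => src b ∈ Q) := fun h => hQ (Finset.mem_filter.mp h).2
            rw [if_neg hQ, Finset.erase_eq_of_notMem h8]
            omega
        refine Game.step _ a k ?_ ?_
        · rw [del_cx _ _ _ _ ha]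
          exact ih _ _ hcard _ (by omega)
        · rw [lk_cx _ _ _ _ ha]
          refine ih _ _ hcard _ ?_
          split_ifs at hfil <;> omega
      · refine Game.cone _ a₀ _ ?_
        rintro B ⟨hB, hSC⟩
        exfalso
        have hne : ∃ w, w ∉ cls src tgt F v := by
          by_contra hcon
          push Not at hcon
          apply hF
          intro x y
          have hx := (mem_cls src tgt).mp (hcon x)
          have hy := (mem_cls src tgt).mp (hcon y)
          exact hx.2.trans' src tgt hy.1
        obtain ⟨w, hw⟩ := hne
        have hvv : v ∈ cls src tgt F v :=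
          (mem_cls src tgt).mpr ⟨R.refl' src tgt F v, R.refl' src tgt F v⟩
        obtain ⟨b, hb, hb1, hb2⟩ := R_leave src tgt (fun x => x ∈ cls src tgt F v) (hSC w v) hw hvv
        rcases hb with hb | ⟨hb, _⟩
        · have hb2' := (mem_cls src tgt).mp hb2
          have h1 : R src tgt F (src b) v := (R.arc src tgt hb).trans' src tgt hb2'.2
          exact hb1 ((mem_cls src tgt).mpr ⟨(mem_Src src tgt).mp hv _ h1, h1⟩)
        · exact hex ⟨b, hb, hb2, hb1⟩

end Pool.Agent.Lib.MP_ce98c0_co.Topo
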