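import Pool.Agent.Lib.MP_ce98c0_co.Topo.Hall
import Pool.Agent.Lib.MP_ce98c0_co.Topo.Strong

/-!
# Every 4-arc-connected digraph has a strong and weak splitting
-/

set_option autoImplicit false

namespace Pool.Agent.Lib.MP_ce98c0_co.Topo

open Finset Classical

variable {V A : Type*} [Fintype V] [Fintype A] (src tgt : A → V)

/-- the number of sink components -/
noncomputable def nt (S : Set A) : ℕ := ns tgt src S

omit [Fintype V] [Fintype A] in
theorem R_swap {S : Set A} {u v : V} (h : R src tgt S u v) : R tgt src S v u := by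
  unfold R at h
  induction h with
  | refl => exact R.refl' tgt src S u
  | tail _ hst ih =>
    obtain ⟨a, ha, rfl, rfl⟩ := hst
    exact (R.arc tgt src ha).trans' tgt src ih

omit [Fintype V] [Fintype A] in
theorem strong_swap {S : Set A} (h : StronglyConnected src tgt S) : StronglyConnected tgt src S :=
  fun u v => R_swap src tgt (h v u)

omit [Fintype V] [Fintype A] in
theorem cx_swap (F : Set A) (E : Finset A) :
    cx (StronglyConnected tgt src) F E = cx (StronglyConnected src tgt) F E := by
  ext B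
  exact ⟨fun h => ⟨h.1, strong_swap tgt src h.2⟩, fun h => ⟨h.1, strong_swap src tgt h.2⟩⟩

omit [Fintype V] [Fintype A] in
theorem W_of_R {S : Set A} {u v : V} (h : R src tgt S u v) : W src tgt S u v := by
  unfold R at h
  induction h with
  | refl => exact Relation.ReflTransGen.refl
  | tail _ hst ih =>
    obtain ⟨a, ha, rfl, rfl⟩ := hst
    exact ih.trans src tgt (W.arc src tgt ha)

omit [Fintype V] [Fintype A] in
theorem W_swap {S : Set A} {u v : V} (h : W src tgt S u v) : W tgt src S u v := by
  unfold W at h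
  induction h with
  | refl => exact Relation.ReflTransGen.refl
  | tail _ hst ih =>
    obtain ⟨a, ha, ⟨rfl, rfl⟩ | ⟨rfl, rfl⟩⟩ := hst
    · exact ih.trans tgt src ((W.arc tgt src ha).symm tgt src)
    · exact ih.trans tgt src (W.arc tgt src ha)

omit [Fintype A] in
theorem np_swap (S : Set A) : np tgt src S = np src tgt S := by
  unfold np
  congr 2
  funext u
  unfold wcls
  ext v
  simp only [Finset.mem_filter, Finset.mem_univ, true_and]
  exact ⟨W_swap tgt src, W_swap src tgt⟩

omit [Fintype A] in
/-- every weak component contains a source component -/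
theorem np_le_ns (S : Set A) : np src tgt S ≤ ns src tgt S := by
  unfold np ns
  have h1 : univ.image (wcls src tgt S) ⊆ (Src src tgt S).image (wcls src tgt S) := by
    intro c hc
    obtain ⟨x, _, rfl⟩ := Finset.mem_image.mp hc
    obtain ⟨y, hy, hyx⟩ := exists_Src src tgt S x
    refine Finset.mem_image.mpr ⟨y, hy, ?_⟩
    rw [wcls_eq_iff]
    exact W_of_R src tgt hyx
  refine le_trans (Finset.card_le_card h1) (card_image_le_of _ _ _ ?_)
  intro x _ y _ hxy
  rw [cls_eq_iff] at hxy
  rw [wcls_eq_iff]
  exact W_of_R src tgt hxy.1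

omit [Fintype A] in
theorem np_le_nt (S : Set A) : np src tgt S ≤ nt src tgt S := by
  unfold nt
  rw [← np_swap]
  exact np_le_ns tgt src S

/-- every proper nonempty vertex set is left by at least four arcs -/
def Cut4 : Prop := ∀ X : Finset V, X.Nonempty → X ≠ univ →
  4 ≤ (univ.filter (fun a : A => src a ∈ X ∧ tgt a ∉ X)).card

theorem cut4_of_arcConnected (h : ArcConnected 4 src tgt) : Cut4 src tgt := by
  intro X hX hX'
  by_contra hlt
  push Not at hlt
  have hSC := h (univ.filter (fun a : A => src a ∈ X ∧ tgt a ∉ X)) (by omega)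
  obtain ⟨x, hx⟩ := hX
  have hy : ∃ y, y ∉ X := by
    by_contra hcon
    push Not at hcon
    exact hX' (Finset.eq_univ_iff_forall.mpr hcon)
  obtain ⟨y, hy⟩ := hy
  obtain ⟨b, hb, hb1, hb2⟩ := R_leave src tgt (fun z => z ∉ X) (hSC x y) (not_not.mpr hx) hy
  have hb1' : src b ∈ X := not_not.mp hb1
  exact hb (Finset.mem_filter.mpr ⟨Finset.mem_univ b, hb1', hb2⟩)

theorem cut4_swap (h : Cut4 src tgt) : Cut4 tgt src := by
  intro X hX hX'
  have h1 : (univ \ X).Nonempty := by
    rw [Finset.sdiff_nonempty]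
    intro hsub
    exact hX' (Finset.eq_univ_iff_forall.mpr fun v => hsub (Finset.mem_univ v))
  have h2 : univ \ X ≠ (univ : Finset V) := by
    intro heq
    obtain ⟨x, hx⟩ := hX
    have h3 : x ∈ univ \ X := by
      rw [heq]
      exact Finset.mem_univ x
    exact (Finset.mem_sdiff.mp h3).2 hx
  have h4 := h (univ \ X) h1 h2
  refine le_trans h4 (Finset.card_le_card ?_)
  intro a ha
  rw [Finset.mem_filter] at ha ⊢
  obtain ⟨_, ha1, ha2⟩ := ha
  refine ⟨Finset.mem_univ a, ?_, ?_⟩
  · by_contra h5
    exact ha2 (Finset.mem_sdiff.mpr ⟨Finset.mem_univ _, h5⟩)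
  · exact (Finset.mem_sdiff.mp ha1).2

theorem strong_bound_aux [Nonempty V] (hcut : Cut4 src tgt) (I : Finset A)
    (hns : ns src tgt {a | a ∉ I} ≤ nt src tgt {a | a ∉ I}) (hn : ¬ StronglyConnected src tgt {a | a ∉ I}) :
    Game (cx (StronglyConnected src tgt) {a | a ∉ I} I) (nt src tgt {a | a ∉ I} - 1) := by
  set F : Set A := {a | a ∉ I} with hFdef
  set Q : Finset V := Src tgt src F with hQdef
  have hcls : ∀ y z : V, cls tgt src F y = cls tgt src F z ↔ cls src tgt F y = cls src tgt F z := by
    intro y z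
    rw [cls_eq_iff, cls_eq_iff]
    exact ⟨fun h => ⟨R_swap tgt src h.2, R_swap tgt src h.1⟩,
      fun h => ⟨R_swap src tgt h.2, R_swap src tgt h.1⟩⟩
  have ht : nt src tgt F = (Q.image (cls src tgt F)).card := by
    unfold nt ns
    refine le_antisymm (card_image_le_of _ _ _ ?_) (card_image_le_of _ _ _ ?_)
    · intro x _ y _ hxy
      exact (hcls x y).mpr hxy
    · intro x _ y _ hxy
      exact (hcls x y).mp hxy
  have hNQ : NQ src tgt Q F ≤ nt src tgt F := by
    rw [ht]
    unfold NQ
    exact Finset.card_le_card (Finset.image_subset_image Finset.sdiff_subset)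
  have hIQ : 4 * nt src tgt F ≤ (I.filter (fun a => src a ∈ Q)).card := by
    rw [ht]
    have hmaps : ∀ a ∈ I.filter (fun a => src a ∈ Q), cls src tgt F (src a) ∈ Q.image (cls src tgt F) :=
      fun a ha => Finset.mem_image_of_mem _ (Finset.mem_filter.mp ha).2
    rw [Finset.card_eq_sum_card_fiberwise hmaps, mul_comm, ← smul_eq_mul]
    refine Finset.card_nsmul_le_sum _ _ _ ?_
    intro C hC
    obtain ⟨y, hy, rfl⟩ := Finset.mem_image.mp hC
    have hy' := (mem_Src tgt src).mp hy
    have hyy : y ∈ cls src tgt F y := (mem_cls src tgt).mpr ⟨R.refl' src tgt F y, R.refl' src tgt F y⟩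
    have hne : cls src tgt F y ≠ univ := by
      intro heq
      apply hn
      intro u v
      have hu : u ∈ cls src tgt F y := by
        rw [heq]
        exact Finset.mem_univ u
      have hv : v ∈ cls src tgt F y := by
        rw [heq]
        exact Finset.mem_univ v
      exact ((mem_cls src tgt).mp hu).2.trans' src tgt ((mem_cls src tgt).mp hv).1
    refine le_trans (hcut _ ⟨y, hyy⟩ hne) (Finset.card_le_card ?_)
    intro a ha
    obtain ⟨_, ha1, ha2⟩ := Finset.mem_filter.mp ha
    have ha1' := (mem_cls src tgt).mp ha1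
    have haI : a ∈ I := by
      by_contra haI
      have haF : a ∈ F := haI
      apply ha2
      have h1 : R src tgt F y (tgt a) := ha1'.1.trans' src tgt (R.arc src tgt haF)
      have h2 := hy' _ (R_swap src tgt h1)
      exact (mem_cls src tgt).mpr ⟨h1, R_swap tgt src h2⟩
    rw [Finset.mem_filter, Finset.mem_filter]
    refine ⟨⟨haI, ?_⟩, ?_⟩
    · exact Src_of_cls tgt src hy (R_swap src tgt ha1'.2) (R_swap src tgt ha1'.1)
    · rw [cls_eq_iff]
      exact ⟨ha1'.2, ha1'.1⟩
  refine game_strong src tgt Q I.card F I rfl _ ?_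
  omega

theorem strong_bound [Nonempty V] (hcut : Cut4 src tgt) (I : Finset A) :
    Game (cx (StronglyConnected src tgt) {a | a ∉ I} I) (np src tgt {a | a ∉ I} - 1) := by
  have h1 := np_le_ns src tgt {a | a ∉ I}
  have h2 := np_le_nt src tgt {a | a ∉ I}
  by_cases hn : StronglyConnected src tgt {a | a ∉ I}
  · have h3 : np src tgt {a | a ∉ I} ≤ 1 := by
      unfold np
      rw [Finset.card_le_one]
      intro c hc c' hc'
      obtain ⟨x, _, rfl⟩ := Finset.mem_image.mp hc
      obtain ⟨y, _, rfl⟩ := Finset.mem_image.mp hc'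
      rw [wcls_eq_iff]
      exact W_of_R src tgt (hn x y)
    have h4 : np src tgt {a | a ∉ I} - 1 = 0 := by omega
    rw [h4]
    exact Game.zero _
  · rcases le_total (ns src tgt {a | a ∉ I}) (nt src tgt {a | a ∉ I}) with h | h
    · exact (strong_bound_aux src tgt hcut I h hn).mono _ (by omega)
    · have h5 := strong_bound_aux tgt src (cut4_swap src tgt hcut) I h
        (fun h6 => hn (strong_swap tgt src h6))
      rw [cx_swap] at h5
      have h7 : nt tgt src {a | a ∉ I} = ns src tgt {a | a ∉ I} := rfl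
      rw [h7] at h5
      exact h5.mono _ (by omega)

/-- the complex of pairs of arc sets -/
def pairs : Set (Finset (A ⊕ A)) :=
  {σ | StronglyConnected src tgt {a | a ∉ σ.toLeft} ∧ WeaklyConnected src tgt {a | a ∉ σ.toRight}}

omit [Fintype V] in
theorem restrict_pairs (I : Finset A) : restrict (pairs src tgt) I =
    join (cx (StronglyConnected src tgt) {a | a ∉ I} I) (cx (WeaklyConnected src tgt) {a | a ∉ I} I) := by
  have hset : ∀ B : Finset A, B ⊆ I → {b : A | b ∈ ({a | a ∉ I} : Set A) ∨ (b ∈ I ∧ b ∉ B)} = {b | b ∉ B} := by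
    intro B hB
    ext b
    constructor
    · rintro (h | ⟨_, h⟩)
      · exact fun hb => h (hB hb)
      · exact h
    · intro h
      by_cases hb : b ∈ I
      · exact Or.inr ⟨hb, h⟩
      · exact Or.inl hb
  ext σ
  constructor
  · rintro ⟨⟨h1, h2⟩, h3, h4⟩
    refine ⟨⟨h3, ?_⟩, ⟨h4, ?_⟩⟩
    · rw [hset _ h3]
      exact h1
    · rw [hset _ h4]
      exact h2
  · rintro ⟨⟨h3, h1⟩, ⟨h4, h2⟩⟩
    rw [hset _ h3] at h1
    rw [hset _ h4] at h2
    exact ⟨⟨h1, h2⟩, h3, h4⟩

theorem splitting (hconn : ArcConnected 4 src tgt) :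
    ∃ T : Finset A, StronglyConnected src tgt {a | a ∉ T} ∧ WeaklyConnected src tgt {a | a ∈ T} := by
  rcases isEmpty_or_nonempty V with hV | hV
  · exact ⟨∅, fun u => (hV.false u).elim, fun u => (hV.false u).elim⟩
  have hcut := cut4_of_arcConnected src tgt hconn
  have hall := hall (pairs src tgt) ?_ ?_ ?_
  · obtain ⟨T, hT1, hT2⟩ := hall
    rw [Finset.toLeft_disjSum] at hT1
    rw [Finset.toRight_disjSum] at hT2
    refine ⟨T, hT1, ?_⟩
    have hset : {a : A | a ∉ univ \ T} = {a | a ∈ T} := by
      ext a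
      simp
    rw [hset] at hT2
    exact hT2
  · intro σ τ hτσ hσ
    refine ⟨fun u v => R.mono src tgt ?_ (hσ.1 u v), fun u v => W.mono src tgt ?_ (hσ.2 u v)⟩
    · intro a ha h
      apply ha
      rw [Finset.mem_toLeft] at h ⊢
      exact hτσ h
    · intro a ha h
      apply ha
      rw [Finset.mem_toRight] at h ⊢
      exact hτσ h
  · have h1 := hconn ∅ (by simp)
    have h2 : ∀ u v, R src tgt {a : A | a ∉ (∅ : Finset A)} u v := h1
    refine ⟨fun u v => R.mono src tgt ?_ (h2 u v), fun u v => W.mono src tgt ?_ (W_of_R src tgt (h2 u v))⟩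
    · intro a _ h
      rw [Finset.mem_toLeft] at h
      exact Finset.notMem_empty _ h
    · intro a _ h
      rw [Finset.mem_toRight] at h
      exact Finset.notMem_empty _ h
  · intro I _
    rw [restrict_pairs]
    have h1 := strong_bound src tgt hcut I
    have h2 : Game (cx (WeaklyConnected src tgt) {a | a ∉ I} I) (I.card + 1 - np src tgt {a | a ∉ I}) := by
      rcases le_total (np src tgt {a | a ∉ I}) (I.card + 1) with h | h
      · exact game_weak src tgt I.card _ _ rfl _ (by omega)
      · have h3 : I.card + 1 - np src tgt {a | a ∉ I} = 0 := by omega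
        rw [h3]
        exact Game.zero _
    exact (h1.join h2).mono _ (by omega)

end Pool.Agent.Lib.MP_ce98c0_co.Topo
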