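import Pool.Agent.Lib.MP_ce98c0_co.Topo.Chain
import Pool.Agent.Lib.MP_ce98c0_co.Defs

/-!
# The complex of arc sets whose deletion keeps a digraph weakly connected
-/

set_option autoImplicit false

namespace Pool.Agent.Lib.MP_ce98c0_co.Topo

open Finset Classical

/-- sets `B` of soft arcs such that the hard arcs together with the soft arcs outside `B` have property `P` -/
def cx {A : Type*} (P : Set A → Prop) (F : Set A) (E : Finset A) : Set (Finset A) :=
  {B | B ⊆ E ∧ P {b | b ∈ F ∨ (b ∈ E ∧ b ∉ B)}}

theorem del_cx {A : Type*} (P : Set A → Prop) (F : Set A) (E : Finset A) (a : A) (ha : a ∈ E) :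
    del (cx P F E) a = cx P (insert a F) (E.erase a) := by
  ext B
  have hset : a ∉ B → {b | b ∈ F ∨ (b ∈ E ∧ b ∉ B)} =
      {b | b ∈ insert a F ∨ (b ∈ E.erase a ∧ b ∉ B)} := by
    intro haB
    ext b
    constructor
    · rintro (h | ⟨h, h'⟩)
      · exact Or.inl (Set.mem_insert_of_mem a h)
      · by_cases hb : b = a
        · subst hb
          exact Or.inl (Set.mem_insert _ _)
        · exact Or.inr ⟨Finset.mem_erase.mpr ⟨hb, h⟩, h'⟩
    · rintro (h | ⟨h, h'⟩)
      · rcases Set.mem_insert_iff.mp h with rfl | h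
        · exact Or.inr ⟨ha, haB⟩
        · exact Or.inl h
      · exact Or.inr ⟨Finset.mem_of_mem_erase h, h'⟩
  constructor
  · rintro ⟨⟨h1, h2⟩, h3⟩
    refine ⟨?_, ?_⟩
    · intro b hb
      exact Finset.mem_erase.mpr ⟨fun h => h3 (h ▸ hb), h1 hb⟩
    · rw [← hset h3]
      exact h2
  · rintro ⟨h1, h2⟩
    have h3 : a ∉ B := fun h => (Finset.mem_erase.mp (h1 h)).1 rfl
    refine ⟨⟨h1.trans (Finset.erase_subset a E), ?_⟩, h3⟩
    rw [hset h3]
    exact h2

theorem lk_cx {A : Type*} (P : Set A → Prop) (F : Set A) (E : Finset A) (a : A) (ha : a ∈ E) :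
    lk (cx P F E) a = cx P F (E.erase a) := by
  ext B
  have hset : {b | b ∈ F ∨ (b ∈ E ∧ b ∉ insert a B)} =
      {b | b ∈ F ∨ (b ∈ E.erase a ∧ b ∉ B)} := by
    ext b
    constructor
    · rintro (h | ⟨h, h'⟩)
      · exact Or.inl h
      · exact Or.inr ⟨Finset.mem_erase.mpr ⟨fun hb => h' (hb ▸ Finset.mem_insert_self _ _), h⟩,
          fun hb => h' (Finset.mem_insert_of_mem hb)⟩
    · rintro (h | ⟨h, h'⟩)
      · exact Or.inl h
      · refine Or.inr ⟨Finset.mem_of_mem_erase h, fun hb => ?_⟩
        rcases Finset.mem_insert.mp hb with hb | hb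
        · exact (Finset.mem_erase.mp h).1 hb
        · exact h' hb
  constructor
  · rintro ⟨h1, h2, h3⟩
    refine ⟨?_, ?_⟩
    · intro b hb
      exact Finset.mem_erase.mpr ⟨fun h => h1 (h ▸ hb), h2 (Finset.mem_insert_of_mem hb)⟩
    · rw [← hset]
      exact h3
  · rintro ⟨h1, h2⟩
    refine ⟨fun h => (Finset.mem_erase.mp (h1 h)).1 rfl, ?_, ?_⟩
    · intro b hb
      rcases Finset.mem_insert.mp hb with rfl | hb
      · exact ha
      · exact Finset.mem_of_mem_erase (h1 hb)
    · rw [hset]
      exact h2

theorem card_image_le_of {V X Y : Type*} [DecidableEq X] [DecidableEq Y] (S : Finset V) (f : V → X)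
    (g : V → Y) (h : ∀ x ∈ S, ∀ y ∈ S, f x = f y → g x = g y) :
    (S.image g).card ≤ (S.image f).card := by
  rcases S.eq_empty_or_nonempty with rfl | ⟨x₀, _⟩
  · simp
  have : Nonempty V := ⟨x₀⟩
  have hc : ∀ y : Y, y ∈ S.image g → ∃ x, x ∈ S ∧ g x = y := fun y hy => Finset.mem_image.mp hy
  choose! c hcS hcg using hc
  refine Finset.card_le_card_of_injOn (fun y => f (c y)) ?_ ?_
  · intro y hy
    exact Finset.mem_image_of_mem f (hcS y hy)
  · intro y hy y' hy' hyy
    rw [← hcg y hy, ← hcg y' hy']
    exact h _ (hcS y hy) _ (hcS y' hy') hyy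

section Weak

variable {V A : Type*} [Fintype V] (src tgt : A → V)

/-- weak reachability -/
def W (S : Set A) : V → V → Prop := Relation.ReflTransGen
    (fun x y => ∃ a ∈ S, (src a = x ∧ tgt a = y) ∨ (src a = y ∧ tgt a = x))

/-- the weak component of a vertex -/
noncomputable def wcls (S : Set A) (u : V) : Finset V := univ.filter (fun v => W src tgt S u v)

/-- the number of weak components -/
noncomputable def np (S : Set A) : ℕ := (univ.image (wcls src tgt S)).card

omit [Fintype V] in
theorem W.symm {S : Set A} {u v : V} (h : W src tgt S u v) : W src tgt S v u := by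
  unfold W at *
  induction h with
  | refl => exact Relation.ReflTransGen.refl
  | tail _ hst ih =>
    obtain ⟨a, ha, h⟩ := hst
    exact Relation.ReflTransGen.head ⟨a, ha, h.symm⟩ ih

omit [Fintype V] in
theorem W.trans {S : Set A} {u v w : V} (h : W src tgt S u v) (h' : W src tgt S v w) :
    W src tgt S u w := Relation.ReflTransGen.trans h h'

omit [Fintype V] in
theorem W.of_arcs {S S' : Set A} (h : ∀ b ∈ S, W src tgt S' (src b) (tgt b)) {u v : V}
    (huv : W src tgt S u v) : W src tgt S' u v := by
  unfold W at huv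
  induction huv with
  | refl => exact Relation.ReflTransGen.refl
  | tail _ hst ih =>
    obtain ⟨a, ha, ⟨rfl, rfl⟩ | ⟨rfl, rfl⟩⟩ := hst
    · exact ih.trans src tgt (h a ha)
    · exact ih.trans src tgt ((h a ha).symm src tgt)

omit [Fintype V] in
theorem W.arc {S : Set A} {a : A} (ha : a ∈ S) : W src tgt S (src a) (tgt a) :=
  Relation.ReflTransGen.single ⟨a, ha, Or.inl ⟨rfl, rfl⟩⟩

omit [Fintype V] in
theorem W.mono {S S' : Set A} (h : S ⊆ S') {u v : V} (huv : W src tgt S u v) : W src tgt S' u v :=
  W.of_arcs src tgt (fun _ hb => W.arc src tgt (h hb)) huv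

theorem wcls_eq_iff (S : Set A) (u v : V) :
    wcls src tgt S u = wcls src tgt S v ↔ W src tgt S u v := by
  constructor
  · intro h
    have : v ∈ wcls src tgt S v := by
      unfold wcls
      exact Finset.mem_filter.mpr ⟨Finset.mem_univ v, Relation.ReflTransGen.refl⟩
    rw [← h] at this
    unfold wcls at this
    exact (Finset.mem_filter.mp this).2
  · intro h
    unfold wcls
    ext w
    simp only [Finset.mem_filter, Finset.mem_univ, true_and]
    exact ⟨fun h' => (h.symm src tgt).trans src tgt h', fun h' => h.trans src tgt h'⟩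

theorem np_insert (F : Set A) (a : A) (ha : ¬ W src tgt F (src a) (tgt a)) :
    np src tgt (insert a F) + 1 ≤ np src tgt F := by
  unfold np
  have h1 : univ.image (wcls src tgt (insert a F)) ⊆
      (univ.filter (fun z => ¬ W src tgt F z (src a))).image (wcls src tgt (insert a F)) := by
    intro c hc
    obtain ⟨z, _, rfl⟩ := Finset.mem_image.mp hc
    by_cases hz : W src tgt F z (src a)
    · refine Finset.mem_image.mpr ⟨tgt a, Finset.mem_filter.mpr ⟨Finset.mem_univ _, ?_⟩, ?_⟩
      · exact fun h => ha (h.symm src tgt)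
      · rw [wcls_eq_iff]
        have h2 : W src tgt (insert a F) z (src a) := W.mono src tgt (Set.subset_insert a F) hz
        have h3 : W src tgt (insert a F) (src a) (tgt a) := W.arc src tgt (Set.mem_insert a F)
        exact (h2.trans src tgt h3).symm src tgt
    · exact Finset.mem_image.mpr ⟨z, Finset.mem_filter.mpr ⟨Finset.mem_univ _, hz⟩, rfl⟩
  have h2 : ((univ.filter (fun z => ¬ W src tgt F z (src a))).image (wcls src tgt (insert a F))).card ≤
      ((univ.filter (fun z => ¬ W src tgt F z (src a))).image (wcls src tgt F)).card := by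
    refine card_image_le_of _ _ _ ?_
    intro x _ y _ hxy
    rw [wcls_eq_iff] at hxy ⊢
    exact W.mono src tgt (Set.subset_insert a F) hxy
  have h3 : (univ.filter (fun z => ¬ W src tgt F z (src a))).image (wcls src tgt F) ⊆
      (univ.image (wcls src tgt F)).erase (wcls src tgt F (src a)) := by
    intro c hc
    obtain ⟨z, hz, rfl⟩ := Finset.mem_image.mp hc
    refine Finset.mem_erase.mpr ⟨?_, Finset.mem_image_of_mem _ (Finset.mem_univ z)⟩
    rw [Ne, wcls_eq_iff]
    exact (Finset.mem_filter.mp hz).2
  have h4 : wcls src tgt F (src a) ∈ univ.image (wcls src tgt F) :=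
    Finset.mem_image_of_mem _ (Finset.mem_univ _)
  have h5 := Finset.card_le_card h1
  have h6 := Finset.card_le_card h3
  have h7 := Finset.card_erase_add_one h4
  omega

theorem game_weak [Nonempty V] (n : ℕ) : ∀ (F : Set A) (E : Finset A), E.card = n →
    ∀ N, N + np src tgt F ≤ n + 1 → Game (cx (WeaklyConnected src tgt) F E) N := by
  have hnp : ∀ F : Set A, 1 ≤ np src tgt F := by
    intro F
    unfold np
    exact Finset.card_pos.mpr (Finset.univ_nonempty.image _)
  induction n with
  | zero =>
    intro F E _ N hN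
    have := hnp F
    have hN0 : N = 0 := by omega
    rw [hN0]
    exact Game.zero _
  | succ n ih =>
    intro F E hE N hN
    obtain ⟨a, ha⟩ : E.Nonempty := Finset.card_pos.mp (by omega)
    by_cases hW : W src tgt F (src a) (tgt a)
    · refine Game.cone _ a N ?_
      rintro B ⟨hB, hWB⟩
      refine ⟨?_, ?_⟩
      · intro b hb
        rcases Finset.mem_insert.mp hb with rfl | hb
        · exact ha
        · exact hB hb
      · intro u v
        refine W.of_arcs src tgt ?_ (hWB u v)
        rintro b (hb | ⟨hb, hb'⟩)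
        · exact W.arc src tgt (Or.inl hb)
        · by_cases hba : b = a
          · subst hba
            exact W.mono src tgt (fun c hc => Or.inl hc) hW
          · refine W.arc src tgt (Or.inr ⟨hb, fun h => ?_⟩)
            rcases Finset.mem_insert.mp h with h | h
            · exact hba h
            · exact hb' h
    · rcases Nat.eq_zero_or_pos N with rfl | hpos
      · exact Game.zero _
      · obtain ⟨k, rfl⟩ : ∃ k, N = k + 1 := ⟨N - 1, by omega⟩
        have hcard : (E.erase a).card = n := by
          rw [Finset.card_erase_of_mem ha, hE, Nat.add_sub_cancel]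
        have h1 := np_insert src tgt F a hW
        refine Game.step _ a k ?_ ?_
        · rw [del_cx _ _ _ _ ha]
          exact ih _ _ hcard _ (by omega)
        · rw [lk_cx _ _ _ _ ha]
          exact ih _ _ hcard _ (by omega)

end Weak

end Pool.Agent.Lib.MP_ce98c0_co.Topo
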